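import Pool.Agent.Helper74.UB.Goals2

/-!
# UB, packet PART: the components of `Q` form a partition of `Q`
-/

namespace Pool.Agent.Helper90.UB

open Finset Equiv Helper28.VF Pool.Agent.Helper74.UB
open scoped Classical

section
variable {D V E F : Type} [Fintype D] [Fintype V] [Fintype E] [Fintype F] (M : PM D V E F)

theorem fa_symm {u v : V} (h : FA M u v) : FA M v u := by
  obtain ⟨d, e, h1, h2, h3⟩ := h
  exact ⟨e, d, h1.symm, h3, h2⟩

/-- The component of `v`. -/
noncomputable def cp (Q : Finset V) (v : V) : Finset V :=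
  Q.filter fun u => Relation.ReflTransGen (fun a b => FA M a b ∧ b ∈ Q) v u

theorem mem_cp {Q : Finset V} {v u : V} :
    u ∈ cp M Q v ↔ u ∈ Q ∧ Relation.ReflTransGen (fun a b => FA M a b ∧ b ∈ Q) v u := by
  unfold cp
  simp

theorem self_mem_cp {Q : Finset V} {v : V} (hv : v ∈ Q) : v ∈ cp M Q v :=
  (mem_cp M).2 ⟨hv, Relation.ReflTransGen.refl⟩

/-- Chains inside `Q` can be reversed. -/
theorem rev {Q : Finset V} {v u : V} (hv : v ∈ Q)
    (h : Relation.ReflTransGen (fun a b => FA M a b ∧ b ∈ Q) v u) :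
    Relation.ReflTransGen (fun a b => FA M a b ∧ b ∈ Q) u v := by
  have key : u ∈ Q ∧ Relation.ReflTransGen (fun a b => FA M a b ∧ b ∈ Q) u v := by
    induction h with
    | refl => exact ⟨hv, Relation.ReflTransGen.refl⟩
    | tail _ hbc ih =>
      exact ⟨hbc.2, Relation.ReflTransGen.head ⟨fa_symm M hbc.1, ih.1⟩ ih.2⟩
  exact key.2

/-- A chain from `X` to the outside of `X` leaves `X` somewhere. -/
theorem leave {Q X : Finset V} {x y : V} (hx : x ∈ X)
    (h : Relation.ReflTransGen (fun a b => FA M a b ∧ b ∈ Q) x y) (hy : y ∉ X) :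
    ∃ a ∈ X, ∃ b ∈ Q, b ∉ X ∧ FA M a b ∧
      Relation.ReflTransGen (fun a b => FA M a b ∧ b ∈ Q) x b := by
  induction h with
  | refl => exact absurd hx hy
  | @tail b c hxb hbc ih =>
    by_cases hb : b ∈ X
    · exact ⟨b, hb, c, hbc.2, hy, hbc.1, hxb.tail hbc⟩
    · exact ih hb

theorem isComp_cp {Q : Finset V} {v : V} (hv : v ∈ Q) : IsComp M Q (cp M Q v) := by
  refine ⟨?_, ⟨v, self_mem_cp M hv⟩, ?_, ?_⟩
  · intro u hu
    exact ((mem_cp M).1 hu).1
  · intro X hX hne hneq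
    obtain ⟨x, hx⟩ := hne
    have hss : ∃ y ∈ cp M Q v, y ∉ X := by
      by_contra hcon
      push Not at hcon
      exact hneq (Finset.Subset.antisymm hX hcon)
    obtain ⟨y, hy, hyX⟩ := hss
    have hxc := (mem_cp M).1 (hX hx)
    have hyc := (mem_cp M).1 hy
    have hchain := (rev M hv hxc.2).trans hyc.2
    obtain ⟨a, ha, b, hb, hbX, hab, hxb⟩ := leave M hx hchain hyX
    refine ⟨a, ha, b, ?_, hbX, hab⟩
    exact (mem_cp M).2 ⟨hb, hxc.2.trans hxb⟩
  · intro u hu w hw huw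
    have huc := (mem_cp M).1 hu
    exact (mem_cp M).2 ⟨hw, huc.2.tail ⟨huw, hw⟩⟩

theorem comp_sub {Q Q' O O' : Finset V} (hQ : Q ⊆ Q') (hO : IsComp M Q O)
    (hO' : IsComp M Q' O') (hd : ¬ Disjoint O O') : O ⊆ O' := by
  by_contra hcon
  have hne : (O ∩ O').Nonempty := by
    rw [Finset.not_disjoint_iff] at hd
    obtain ⟨a, ha, ha'⟩ := hd
    exact ⟨a, Finset.mem_inter.2 ⟨ha, ha'⟩⟩
  have hneq : O ∩ O' ≠ O := by
    intro h
    exact hcon (Finset.inter_eq_left.1 h)
  obtain ⟨u, hu, w, hw, hwX, huw⟩ := hO.conn (O ∩ O') Finset.inter_subset_left hne hneq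
  have hu' := Finset.mem_inter.1 hu
  have : w ∈ O' := hO'.closed u hu'.2 w (hQ (hO.sub hw)) huw
  exact hwX (Finset.mem_inter.2 ⟨hw, this⟩)

theorem comp_eq {Q O O' : Finset V} (hO : IsComp M Q O) (hO' : IsComp M Q O')
    (hd : ¬ Disjoint O O') : O = O' := by
  apply Finset.Subset.antisymm
  · exact comp_sub M (Finset.Subset.refl Q) hO hO' hd
  · exact comp_sub M (Finset.Subset.refl Q) hO' hO (fun h => hd h.symm)

theorem mem_comps {Q O : Finset V} : O ∈ comps M Q ↔ IsComp M Q O := by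
  unfold comps
  simp only [Finset.mem_filter, Finset.mem_powerset]
  exact ⟨fun h => h.2, fun h => ⟨h.sub, h⟩⟩

theorem sum_card (Q : Finset V) : ∑ O ∈ comps M Q, O.card = Q.card := by
  have hdis : ∀ x ∈ comps M Q, ∀ y ∈ comps M Q, x ≠ y → Disjoint x y := by
    intro x hx y hy hxy
    by_contra hcon
    exact hxy (comp_eq M ((mem_comps M).1 hx) ((mem_comps M).1 hy) hcon)
  have h1 : ((comps M Q).biUnion fun O => O).card = ∑ O ∈ comps M Q, O.card :=
    Finset.card_biUnion hdis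
  have h2 : ((comps M Q).biUnion fun O => O) = Q := by
    ext v
    simp only [Finset.mem_biUnion]
    constructor
    · rintro ⟨O, hO, hv⟩
      exact ((mem_comps M).1 hO).sub hv
    · intro hv
      exact ⟨cp M Q v, (mem_comps M).2 (isComp_cp M hv), self_mem_cp M hv⟩
  rw [← h1, h2]

end

theorem part : StmtPart := by
  intro D V E F _ _ _ _ M
  refine ⟨?_, ?_, ?_, ?_⟩
  · intro Q v hv
    exact ⟨cp M Q v, isComp_cp M hv, self_mem_cp M hv⟩
  · intro Q Q' O O' hQ hO hO' hd
    exact comp_sub M hQ hO hO' hd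
  · intro Q O O' hO hO' hd
    exact comp_eq M hO hO' hd
  · intro Q
    exact sum_card M Q

end Pool.Agent.Helper90.UB
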