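import Pool.Agent.Helper74.UB.Goals4

/-!
# UB, packet SIT: two routes to a column
-/

namespace Pool.Agent.Helper90.UB

open Finset Equiv Helper28.VF Pool.Agent.Helper74.UB
open scoped Classical

theorem fa_of_ad {D V E F : Type} [Fintype D] [Fintype V] [Fintype E] [Fintype F]
    (M : PM D V E F) {u v : V} (h : Ad M u v) : FA M u v := by
  obtain ⟨d, h1, h2⟩ := h
  refine ⟨d, ph M d, ?_, h1, ?_⟩
  · rw [M.fc_iff]
    have h3 : ph M d = (M.σ * M.α) d := rfl
    rw [h3]
    exact (Equiv.Perm.sameCycle_apply_right).2 (Equiv.Perm.SameCycle.refl _ _)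
  · rw [← h2]
    unfold ph tg
    rw [M.vt_iff]
    exact (Equiv.Perm.sameCycle_apply_left).2 (Equiv.Perm.SameCycle.refl _ _)

theorem le_tp {V J : Type} [Fintype V] (row : V → ℤ) (y : ℤ) (B : Finset (V ⊕ J)) :
    y ≤ tp row y B := by
  unfold tp
  exact Finset.le_max' _ _ (mem_insert_self _ _)

theorem bt_le {V J : Type} [Fintype V] (row : V → ℤ) (y : ℤ) (B : Finset (V ⊕ J)) :
    bt row y B ≤ y := by
  unfold bt
  exact Finset.min'_le _ _ (mem_insert_self _ _)

theorem sit (hT : StmtRouteT) (hB : StmtRouteB) (hC : StmtColX) (hF : StmtBaseF) : StmtSit := by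
  intro K h V D E F E' F' _ _ _ _ _ _ L f M dE dW dU dN I M' y0 y1 c v₀ A Q base w₁ w₂ x
    hw1 hw2 T hdis hA1 hA2
  have host := base.host
  have ax := host.ax
  have flat := host.flat
  have row1 : L.row w₁ = h + 1 := by
    rw [ax.up_row _ _ hw1, flat.row h x (Nat.zero_le _) le_rfl]
  have row2 : L.row w₂ = -1 := by
    have h1 := ax.up_row _ _ hw2
    have h2 := flat.row 0 x le_rfl (Nat.zero_le _)
    simp only [Nat.cast_zero] at h2
    rw [h2] at h1
    omega
  have m1 : (Sum.inl w₁ : VC V I) ∈ colX I h f w₁ w₂ x := by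
    unfold colX
    exact mem_insert_self _ _
  have m2 : (Sum.inl w₂ : VC V I) ∈ colX I h f w₁ w₂ x := by
    unfold colX
    exact mem_insert_of_mem (mem_insert_self _ _)
  obtain ⟨R₁, a1, a2, a3, a4⟩ := hT K h V D E F E' F' L f M dE dW dU dN I M' y0 y1 c v₀ A Q base T
    (colX I h f w₁ w₂ x) w₁ row1 m1 hA1
  obtain ⟨R₂, b1, b2, b3, b4⟩ := hB K h V D E F E' F' L f M dE dW dU dN I M' y0 y1 c v₀ A Q base T
    (colX I h f w₁ w₂ x) w₂ row2 m2 hA2
  have hFA := (hF K h V D E F E' F' L f M dE dW dU dN I M' y0 y1 c v₀ A Q base).2.2.2.2.1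
  refine ⟨R₁, R₂, ?_⟩
  refine ⟨base, ?_, ?_, ?_, a1, b1, a3, b3, a2, b2, a4, b4⟩
  · exact hC K h V D E F E' F' L f M dE dW dU dN I M' host base.lm base.cone w₁ w₂ x hw1 hw2 Q T
      hdis
  · refine ⟨x, ?_⟩
    intro r hr0 hrh
    unfold colX
    refine mem_insert_of_mem (mem_insert_of_mem (mem_image.2 ⟨(r : ℤ), ?_, rfl⟩))
    rw [Finset.mem_Icc]
    exact ⟨by exact_mod_cast hr0, by exact_mod_cast hrh⟩
  · intro s hs i hi1 hi2 j hj1 hj2
    obtain ⟨v, hv, hrv⟩ := a2 s hs i hi1 hi2
    obtain ⟨u, hu, hru⟩ := b2 s hs j hj1 hj2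
    have t1 := le_tp L.row y0 (A s)
    have t2 := bt_le L.row y1 (A s)
    have y01 : y1 ≤ y0 + 1 := by
      rcases base.start with h1 | h1
      · rw [h1.1]; omega
      · rw [h1.1]
    have r0 := base.rng.1
    have r1 := base.rng.2
    have key : L.row u + 2 ≤ L.row v := by
      rcases le_total (tp L.row y0 (A s) + 2) ((h : ℤ) + 1) with c1 | c1
      · rw [min_eq_left c1] at hrv
        rcases le_total (bt L.row y1 (A s) - 2) (-1) with c2 | c2
        · rw [max_eq_right c2] at hru
          omega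
        · rw [max_eq_left c2] at hru
          omega
      · rw [min_eq_right c1] at hrv
        rcases le_total (bt L.row y1 (A s) - 2) (-1) with c2 | c2
        · rw [max_eq_right c2] at hru
          omega
        · rw [max_eq_left c2] at hru
          omega
    constructor
    · intro heq
      rw [hv, hu] at heq
      have := Sum.inl.inj heq
      rw [this] at key
      omega
    · intro had
      rw [hv, hu] at had
      have := (hFA v u (fa_of_ad M' had)).1
      omega

end Pool.Agent.Helper90.UB
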